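import Pool.Agent.MWA.StmtsB

/-!
# Row LSM of block MWA (MP_23468a_al): absorption before the last block descends to `β`
-/

set_option autoImplicit false

namespace Pool.Agent.MWA.H2

open Pool.Agent.Helper14_MV Pool.Agent.Helper2_MV Pool.Agent.MVO Pool.Agent.MWL Pool.Agent.MWS

theorem psh_two {k i p q : ℕ} {a b : ℕ → ℕ} (ha : Two2 k a q i) (hb : Two2 k b p i) :
    ∀ t ≤ k, psh k (fun r => if r < i then p else r) a t = b t := by
  obtain ⟨hq, hik, ha⟩ := ha
  obtain ⟨hp, -, hb⟩ := hb
  intro t ht
  rw [hb t ht]
  unfold psh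
  have e : ∀ r ∈ Finset.range (k + 1),
      (if (if r < i then p else r) = t then a r else 0) =
        (if r = q then (if t = p then 1 else 0) else 0) +
          (if r = i then (if t = i then 1 else 0) else 0) := by
    intro r hr
    rw [Finset.mem_range] at hr
    rw [ha r (by omega)]
    rcases lt_trichotomy r i with h | h | h
    · have e1 : ¬ (r = i) := by omega
      rcases eq_or_ne r q with h2 | h2
      · rw [if_pos h, if_pos (Or.inl h2), if_pos h2, if_neg e1, add_zero]
        rcases eq_or_ne p t with h3 | h3
        · rw [if_pos h3, if_pos h3.symm]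
        · rw [if_neg h3, if_neg h3.symm]
      · simp only [e1, h2, if_false, or_self, ite_self, add_zero]
    · have e1 : ¬ (i < i) := by omega
      have e2 : ¬ (i = q) := by omega
      subst h
      rcases eq_or_ne r t with h3 | h3
      · subst h3
        simp only [e1, e2, if_true, if_false, or_true, zero_add]
      · simp only [e1, e2, h3, h3.symm, if_false, if_true, zero_add]
    · have e1 : ¬ (r = i) := by omega
      have e2 : ¬ (r = q) := by omega
      simp only [e1, e2, if_false, or_self, ite_self, add_zero]
  rw [Finset.sum_congr rfl e, Finset.sum_add_distrib, Finset.sum_ite_eq', Finset.sum_ite_eq']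
  rw [if_pos (Finset.mem_range.2 (by omega)), if_pos (Finset.mem_range.2 (by omega))]
  rcases eq_or_ne t p with h | h
  · have e2 : ¬ (t = i) := by omega
    rw [if_pos h, if_neg e2, if_pos (Or.inl h)]
  · rcases eq_or_ne t i with h2 | h2
    · rw [if_neg h, if_pos h2, if_pos (Or.inr h2)]
    · rw [if_neg h, if_neg h2, if_neg (by tauto)]

theorem bmap_two {k i p : ℕ} (hp : p < i) (hik : i ≤ k) :
    BMap k k (fun r => if r < i then p else r) := by
  constructor
  · intro x y hxy hy
    show (if x < i then p else x) ≤ (if y < i then p else y)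
    split_ifs <;> omega
  · intro x hx
    show (if x < i then p else x) ≤ k
    split_ifs <;> omega

/-- **LSM** -/
theorem lsm (trn : MWL.TrnStmt) (_ : HabStmt) (lgt : LgtStmt) : LsmStmt := by
  intro β hβ hJ θ hle k a b i j p hdeg ha hai hji hab1 hb hnb
  by_contra hc
  push Not at hc
  obtain ⟨q, hq⟩ := lgt β hβ.ap k a i 0 hdeg ha hai (Or.inl rfl) hJ hc (by intro h; omega)
  have hik : i ≤ k := ha.1
  obtain ⟨-, -, hc3, hc4⟩ := trn 1 (FC.ofFIC θ) k a j
  have h1 := hc4 k (fun r => if r < i then p else r) (bmap_two hb.1 hik) (by omega) hab1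
  have e : (if j < i then p else j) = p := if_pos hji
  rw [e] at h1
  obtain ⟨-, -, hd3, -⟩ := trn 1 (FC.ofFIC θ) k (psh k (fun r => if r < i then p else r) a) p
  exact hnb ((hd3 b (psh_two hq hb)).1 h1)

end Pool.Agent.MWA.H2
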