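import Pool.Agent.MWA.StmtsQ
import Pool.Agent.Helper2_MWA.LSM

/-!
# Row LSP of block MWA (MP_23468a_al): absorption before the last block descends to `β` (period `n`)
-/

set_option autoImplicit false

namespace Pool.Agent.MWA.H2

open Pool.Agent.Helper14_MV Pool.Agent.Helper2_MV Pool.Agent.MVO Pool.Agent.MWL Pool.Agent.MWS

/-- **LSP** -/
theorem lsp (trn : MWL.TrnStmt) (_ : HapStmt) (lgp : LgpStmt) : LspStmt := by
  intro n β hβ hJ θ hle k a b i j p hdeg ha hai hji hab1 hb hnb
  by_contra hc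
  push Not at hc
  obtain ⟨q, hq⟩ := lgp n β hβ.pos hβ.ap k a i 0 hdeg ha hai (Or.inl rfl) hJ hc
    (by intro h; omega)
  have hik : i ≤ k := ha.1
  obtain ⟨-, -, -, hc4⟩ := trn n (FC.ofFIC θ) k a j
  have h1 := hc4 k (fun r => if r < i then p else r) (bmap_two hb.1 hik) (by omega) hab1
  have e : (if j < i then p else j) = p := if_pos hji
  rw [e] at h1
  obtain ⟨-, -, hd3, -⟩ := trn n (FC.ofFIC θ) k (psh k (fun r => if r < i then p else r) a) p
  exact hnb ((hd3 b (psh_two hq hb)).1 h1)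

end Pool.Agent.MWA.H2
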