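import Pool.Agent.MWA.StmtsQ

/-!
# Row PPQ of block MWA (MP_23468a_al): both types absorb before the common last block (period `n`)
-/

set_option autoImplicit false

namespace Pool.Agent.MWA.H2

open Pool.Agent.Helper14_MV Pool.Agent.Helper2_MV Pool.Agent.MVO Pool.Agent.MWL Pool.Agent.MWS

/-- the case `j ≤ r` -/
theorem ppq_aux (use : UseStmt) (btf : BtfStmt) {n : ℕ} {β : FIC} (hβ : BsP n β) (hP : Pf β)
    {θ : FIC} (hle : β ≤ θ) {k : ℕ} {a b : ℕ → ℕ} {i j r : ℕ} (ha : Lst k a i) (hb : Lst k b i)
    (hji : j < i) (hri : r < i) (hjr : j ≤ r) (h1 : AbN n θ k a j) (h2 : AbN n θ k b r) :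
    Bt θ k a b i := by
  obtain ⟨hik, ha0, -⟩ := ha
  obtain ⟨-, hb0, -⟩ := hb
  have hn : 1 ≤ n := hβ.pos
  have h3 : Bt β k (ad n a j) (ad n b r) i := by
    refine (use β hβ.cl).2.1 2 0 1 0 2 1 k j r i (ad n a j) (ad n b r) (by norm_num)
      (by norm_num) (by norm_num) (by norm_num) hP hjr hri.le hik ?_ ?_
    · intro t ht
      unfold ad
      rcases eq_or_ne t i with h | h
      · subst h
        have e1 : ¬ (t = j) := by omega
        simp only [e1, if_false, if_true, ite_self]
        omega
      · simp only [h, if_false, ite_self]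
        split_ifs <;> omega
    · intro t ht
      unfold ad
      rcases eq_or_ne t i with h | h
      · subst h
        have e1 : ¬ (t = r) := by omega
        simp only [e1, if_false, if_true, ite_self]
        omega
      · simp only [h, if_false, ite_self]
        split_ifs <;> omega
  exact (btf θ k a (ad n a j) b (ad n b r) h1 h2).2 i (Bt.mono hle h3)

/-- **PPQ** -/
theorem ppq (use : UseStmt) (btf : BtfStmt) (btp : BtpStmt) : PpqStmt := by
  intro n β hβ hP θ hle k a b i j r ha hb hji hri h1 h2
  rcases le_total j r with h | h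
  · exact ppq_aux use btf hβ hP hle ha hb hji hri h h1 h2
  · exact (btp θ (hβ.mono hle).cl (hβ.mono hle).r0).2.1 k b a i
      (ppq_aux use btf hβ hP hle hb ha hri hji h h2 h1)

end Pool.Agent.MWA.H2
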