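import Pool.Agent.MWA.StmtsB

/-!
# Row PPP of block MWA (MP_23468a_al): both types absorb before the common last block
-/

set_option autoImplicit false

namespace Pool.Agent.MWA.H2

open Pool.Agent.Helper14_MV Pool.Agent.Helper2_MV Pool.Agent.MVO Pool.Agent.MWL Pool.Agent.MWS

/-- the case `j ≤ r` -/
theorem ppp_aux (use : UseStmt) (btf : BtfStmt) {β : FIC} (hβ : BsA β) (hP : Pf β) {θ : FIC}
    (hle : β ≤ θ) {k : ℕ} {a b : ℕ → ℕ} {i j r : ℕ} (ha : Lst k a i) (hb : Lst k b i)
    (hji : j < i) (hri : r < i) (hjr : j ≤ r) (h1 : AbF θ k a j) (h2 : AbF θ k b r) :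
    Bt θ k a b i := by
  obtain ⟨hik, ha0, -⟩ := ha
  obtain ⟨-, hb0, -⟩ := hb
  have h3 : Bt β k (a2 a j) (a2 b r) i := by
    refine (use β hβ.cl).2.1 2 0 1 0 2 1 k j r i (a2 a j) (a2 b r) (by norm_num) (by norm_num)
      (by norm_num) (by norm_num) hP hjr hri.le hik ?_ ?_
    · intro t ht
      unfold a2
      rcases eq_or_ne t i with h | h
      · subst h
        have e1 : ¬ (t = j) := by omega
        simp only [e1, if_false, if_true, ite_self]
        omega
      · simp only [h, if_false, ite_self]
        omega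
    · intro t ht
      unfold a2
      rcases eq_or_ne t i with h | h
      · subst h
        have e1 : ¬ (t = r) := by omega
        simp only [e1, if_false, if_true, ite_self]
        omega
      · simp only [h, if_false, ite_self]
        omega
  exact (btf θ k a (a2 a j) b (a2 b r) h1 h2).2 i (Bt.mono hle h3)

/-- **PPP** -/
theorem ppp (use : UseStmt) (btf : BtfStmt) (bta : BtaStmt) : PppStmt := by
  intro β hβ hP θ hle k a b i j r ha hb hji hri h1 h2
  rcases le_total j r with h | h
  · exact ppp_aux use btf hβ hP hle ha hb hji hri h h1 h2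
  · exact (bta θ (hβ.mono hle)).2.1 k b a i
      (ppp_aux use btf hβ hP hle hb ha hri hji h h2 h1)

end Pool.Agent.MWA.H2
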